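import Pool.Agent.Helper552_D4.Iso
import Pool.Agent.Helper552_D4.Statement

/-!
# The conjecture of Barnes and Sloane in dimension four
-/

set_option autoImplicit false

namespace Pool.Agent.Results.MP_6f8dd9_co.Dim4

open Pool.Agent.Helper552_D4 Pool.Agent.Helper552_D4.Main Pool.Agent.Helper552_D4.Quant

theorem low (L : Submodule ℤ (EuclideanSpace ℝ (Fin 4))) (h : IsUnitLattice L) :
    13 / (30 * Real.sqrt 2) ≤ secondMoment L := by
  obtain ⟨i1, i2, hcov⟩ := h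
  exact T1 L hcov

theorem unit_of_frame (L : Submodule ℤ (EuclideanSpace ℝ (Fin 4))) (h : HasFrame L) :
    IsUnitLattice L := by
  obtain ⟨b, p, hsp, hF⟩ := h
  subst hsp
  refine ⟨inferInstance, inferInstance, ?_⟩
  have hg := covol_gram b p _ _ _ _ _ _ _ _ hF
  have hpos : 0 < ZLattice.covolume (Submodule.span ℤ (Set.range b)) :=
    ZLattice.covolume_pos _ _
  have h2 : (1 / Real.sqrt 2) ^ 2 = 1 / 2 := by
    rw [div_pow, Real.sq_sqrt (by norm_num)]; norm_num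
  have h1 : DD (1 / Real.sqrt 2) 0 (1 / Real.sqrt 2) (1 / Real.sqrt 2) 0 (1 / Real.sqrt 2)
      * (1 / Real.sqrt 2) = 1 := by
    have : DD (1 / Real.sqrt 2) 0 (1 / Real.sqrt 2) (1 / Real.sqrt 2) 0 (1 / Real.sqrt 2)
      * (1 / Real.sqrt 2) = 4 * ((1 / Real.sqrt 2) ^ 2) ^ 2 := by
      unfold DD; ring
    rw [this, h2]; norm_num
  rw [h1] at hg
  nlinarith

theorem exists_frame_lattice : ∃ L : Submodule ℤ (EuclideanSpace ℝ (Fin 4)), HasFrame L := by
  obtain ⟨u, hu⟩ := Iso.exists_u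
  exact ⟨_, u, Iso.p0, rfl, Iso.frame_u u hu⟩

theorem min_of_frame (L : Submodule ℤ (EuclideanSpace ℝ (Fin 4))) (h : HasFrame L) :
    IsMinimizer L := by
  have hu := unit_of_frame L h
  refine ⟨hu, fun L' hL' => ?_⟩
  obtain ⟨i1, i2, hcov⟩ := hu
  exact (T4b L hcov h).trans (low L' hL')

theorem value_of_min (L : Submodule ℤ (EuclideanSpace ℝ (Fin 4))) (h : IsMinimizer L) :
    secondMoment L ≤ 13 / (30 * Real.sqrt 2) := by
  obtain ⟨L0, hL0⟩ := exists_frame_lattice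
  have hu := unit_of_frame L0 hL0
  refine (h.2 L0 hu).trans ?_
  obtain ⟨i1, i2, hcov⟩ := hu
  exact T4b L0 hcov hL0

/-- A shortest dual vector of a lattice with the minimal second moment has the maximal length,
and the dual lattice is a densest packing lattice. -/
theorem dual_of_value (L : Submodule ℤ (EuclideanSpace ℝ (Fin 4))) (hL : IsUnitLattice L)
    (h : secondMoment L ≤ 13 / (30 * Real.sqrt 2)) :
    ∀ m : E4, m ≠ 0 → InDual L m → Real.sqrt 2 ≤ ‖m‖ ^ 2 := by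
  obtain ⟨i1, i2, hcov⟩ := hL
  obtain ⟨p, hp⟩ := exists_shortest_dual L hcov
  have hp2 := T2 L hcov h p hp
  intro m hm0 hm
  rw [← hp2]
  exact pow_le_pow_left₀ (norm_nonneg _) (hp.le m hm0 hm) 2

theorem densest_of_bound (M : Submodule ℤ (EuclideanSpace ℝ (Fin 4))) (hM : IsUnitLattice M)
    (h : ∀ w ∈ M, w ≠ 0 → Real.sqrt 2 ≤ ‖w‖ ^ 2) : IsDensest M := by
  refine ⟨hM, ?_⟩
  rintro M' ⟨j1, j2, hM'c⟩
  obtain ⟨v, hv1, hv2, hv3⟩ := exists_shortest M'
  obtain ⟨N, c1, c2, hNc, hN, hM'N⟩ := exists_dual M' hM'c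
  have hv : Shortest N v :=
    ⟨hv2, (hM'N v).1 hv1, fun m hm0 hm => hv3 m ((hM'N m).2 hm) hm0⟩
  have hv4 := T3 N hNc v hv
  refine ⟨v, hv1, hv2, fun w hw hw0 => ?_⟩
  have h1 : ‖v‖ ^ 2 ≤ ‖w‖ ^ 2 := hv4.trans (h w hw hw0)
  have := Real.sqrt_le_sqrt h1
  rwa [Real.sqrt_sq (norm_nonneg _), Real.sqrt_sq (norm_nonneg _)] at this

theorem bound_of_densest (M : Submodule ℤ (EuclideanSpace ℝ (Fin 4))) (hM : IsDensest M) :
    ∀ w ∈ M, w ≠ 0 → Real.sqrt 2 ≤ ‖w‖ ^ 2 := by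
  obtain ⟨M0, a1, a2, hM0c, hM0⟩ := exists_d4
  obtain ⟨v, hv1, hv2, hv3⟩ := hM.2 M0 ⟨a1, a2, hM0c⟩
  intro w hw hw0
  exact (hM0 v hv1 hv2).trans (pow_le_pow_left₀ (norm_nonneg _) (hv3 w hw hw0) 2)

/-- **The conjecture of Barnes and Sloane in dimension four.** Every lattice of covolume one in
`ℝ^4` has second moment at least `13 / (30 √2)`, and for a `ℤ`-submodule `L` of `ℝ^4` the
following are equivalent: `L` is a minimizer of the second moment among the lattices of covolume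
one; `L` is the polar of a lattice giving a densest lattice packing of balls; `L` is a lattice of
covolume one with second moment `13 / (30 √2)`; `L` is isometric to `2^(-1/4) D₄`. -/
theorem result :
    (∀ L : Submodule ℤ (EuclideanSpace ℝ (Fin 4)), IsUnitLattice L →
      13 / (30 * Real.sqrt 2) ≤ secondMoment L) ∧
    ∀ L : Submodule ℤ (EuclideanSpace ℝ (Fin 4)),
      (IsMinimizer L ↔ ∃ M : Submodule ℤ (EuclideanSpace ℝ (Fin 4)),
        IsDensest M ∧ IsPolar L M) ∧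
      (IsMinimizer L ↔ IsUnitLattice L ∧ secondMoment L = 13 / (30 * Real.sqrt 2)) ∧
      (IsMinimizer L ↔ IsScaledD4 L) := by
  refine ⟨low, fun L => ?_⟩
  have frame_of_value : IsUnitLattice L → secondMoment L ≤ 13 / (30 * Real.sqrt 2) →
      HasFrame L := by
    intro hL h
    have h2 := dual_of_value L hL h
    obtain ⟨i1, i2, hcov⟩ := hL
    exact T4a L hcov h2
  refine ⟨⟨?_, ?_⟩, ⟨?_, ?_⟩, ⟨?_, ?_⟩⟩
  · intro hmin
    have h2 := dual_of_value L hmin.1 (value_of_min L hmin)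
    obtain ⟨i1, i2, hcov⟩ := hmin.1
    obtain ⟨M, k1, k2, hMc, hM, hL⟩ := exists_dual L hcov
    exact ⟨M, densest_of_bound M ⟨k1, k2, hMc⟩ (fun w hw hw0 => h2 w hw0 ((hM w).1 hw)), hL⟩
  · rintro ⟨M, hdens, hL⟩
    have hb := bound_of_densest M hdens
    obtain ⟨k1, k2, hMc⟩ := hdens.1
    obtain ⟨N, c1, c2, hNc, hN, hMN⟩ := exists_dual M hMc
    have hNL : N = L := by
      ext y
      rw [hN y, hL y]
      rfl
    subst hNL
    exact min_of_frame N (T4a N hNc fun m hm0 hm => hb m ((hMN m).2 hm) hm0)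
  · intro hmin
    exact ⟨hmin.1, le_antisymm (value_of_min L hmin) (low L hmin.1)⟩
  · rintro ⟨hL, h⟩
    exact min_of_frame L (frame_of_value hL h.le)
  · intro hmin
    exact (Iso.hasFrame_iff L).1 (frame_of_value hmin.1 (value_of_min L hmin))
  · intro h
    exact min_of_frame L ((Iso.hasFrame_iff L).2 h)

end Pool.Agent.Results.MP_6f8dd9_co.Dim4
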